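import Pool.Agent.Q227.AL.Slide
import Pool.Agent.Q227.AT.Sep

set_option autoImplicit false
set_option linter.unusedSectionVars false

open Filter Topology Set Metric

namespace Pool.Agent.Q227.AL

variable {ι : Type*}

/-- the limit of a sequence of sets along an ultrafilter -/
def UL {X : Type*} [TopologicalSpace X] (𝒰 : Ultrafilter ι) (C : ι → Set X) : Set X :=
  {z | ∀ W ∈ 𝓝 z, ∀ᶠ n in (𝒰 : Filter ι), (W ∩ C n).Nonempty}

theorem isClosed_UL {X : Type*} [TopologicalSpace X] (𝒰 : Ultrafilter ι) (C : ι → Set X) :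
    IsClosed (UL 𝒰 C) := by
  rw [← isOpen_compl_iff, isOpen_iff_mem_nhds]
  intro z hz
  simp only [UL, mem_compl_iff, mem_ofPred_eq, not_forall] at hz
  obtain ⟨W, hW, h1⟩ := hz
  obtain ⟨W', hW'W, hW'o, hzW'⟩ := mem_nhds_iff.1 hW
  refine mem_of_superset (hW'o.mem_nhds hzW') fun y hy hyL => h1 ?_
  filter_upwards [hyL W' (hW'o.mem_nhds hy)] with n hn
  exact hn.mono (inter_subset_inter_left _ hW'W)

theorem mem_UL {X : Type*} [TopologicalSpace X] (𝒰 : Ultrafilter ι) (C : ι → Set X) (y : ι → X)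
    (hy : ∀ᶠ n in (𝒰 : Filter ι), y n ∈ C n) (z : X) (h : Tendsto y 𝒰 (𝓝 z)) : z ∈ UL 𝒰 C := by
  intro W hW
  filter_upwards [hy, h hW] with n h1 h2
  exact ⟨y n, h2, h1⟩

theorem exists_lim {X : Type*} [TopologicalSpace X] [CompactSpace X] (𝒰 : Ultrafilter ι)
    (y : ι → X) : ∃ z, Tendsto y 𝒰 (𝓝 z) := by
  have h := isCompact_univ.ultrafilter_le_nhds (𝒰.map y) (by simp)
  obtain ⟨z, _, hz⟩ := h
  exact ⟨z, hz⟩

theorem isPreconnected_UL {X : Type*} [MetricSpace X] [CompactSpace X] (𝒰 : Ultrafilter ι)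
    (C : ι → Set X) (hC : ∀ n, IsPreconnected (C n)) : IsPreconnected (UL 𝒰 C) := by
  rw [isPreconnected_closed_iff]
  intro A B hA hB hAB hLA hLB
  by_contra hne
  have hd : Disjoint (UL 𝒰 C ∩ A) (UL 𝒰 C ∩ B) := by
    rw [Set.disjoint_left]
    rintro x ⟨h1, h2⟩ ⟨_, h4⟩
    exact hne ⟨x, h1, h2, h4⟩
  obtain ⟨O1, O2, hO1, hO2, h1, h2, h12⟩ := normal_separation ((isClosed_UL 𝒰 C).inter hA)
    ((isClosed_UL 𝒰 C).inter hB) hd
  have hsub : ∀ᶠ n in (𝒰 : Filter ι), C n ⊆ O1 ∪ O2 := by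
    by_contra hcon
    rw [← Ultrafilter.eventually_not] at hcon
    have hx : ∀ n, ∃ w, ¬ (C n ⊆ O1 ∪ O2) → w ∈ C n ∧ w ∉ O1 ∪ O2 := by
      intro n
      by_cases h : C n ⊆ O1 ∪ O2
      · exact ⟨hLA.some, fun h' => absurd h h'⟩
      · obtain ⟨w, hw1, hw2⟩ := not_subset.1 h
        exact ⟨w, fun _ => ⟨hw1, hw2⟩⟩
    choose w hw using hx
    obtain ⟨z, hz⟩ := exists_lim 𝒰 w
    have hzL : z ∈ UL 𝒰 C := mem_UL 𝒰 C w (hcon.mono fun n hn => (hw n hn).1) z hz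
    have hzc : z ∈ (O1 ∪ O2)ᶜ := by
      refine (hO1.union hO2).isClosed_compl.mem_of_tendsto hz ?_
      exact hcon.mono fun n hn => (hw n hn).2
    apply hzc
    rcases hAB hzL with h | h
    · exact Or.inl (h1 ⟨hzL, h⟩)
    · exact Or.inr (h2 ⟨hzL, h⟩)
  obtain ⟨a, ha⟩ := hLA
  obtain ⟨b, hb⟩ := hLB
  have hea := ha.1 O1 (hO1.mem_nhds (h1 ha))
  have heb := hb.1 O2 (hO2.mem_nhds (h2 hb))
  obtain ⟨n, h3, h4, h5⟩ := (hsub.and (hea.and heb)).exists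
  obtain ⟨x, _, hx1, hx2⟩ := hC n O1 O2 hO1 hO2 h3 (by rwa [inter_comm]) (by rwa [inter_comm])
  exact Set.disjoint_left.1 h12 hx1 hx2

theorem closed_rel {X : Type*} [TopologicalSpace X] (𝒰 : Ultrafilter ι) (C : ι → Set X)
    (R : Set (X × X)) (hR : IsClosed R) (y : ι → X) (x : X) (hy : Tendsto y 𝒰 (𝓝 x))
    (h : ∀ᶠ n in (𝒰 : Filter ι), ∀ z ∈ C n, (y n, z) ∈ R) (z : X) (hz : z ∈ UL 𝒰 C) :
    (x, z) ∈ R := by
  by_contra hcon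
  have h1 : Rᶜ ∈ 𝓝 (x, z) := hR.isOpen_compl.mem_nhds hcon
  rw [nhds_prod_eq, mem_prod_iff] at h1
  obtain ⟨U, hU, W, hW, hUW⟩ := h1
  have hyU : ∀ᶠ n in (𝒰 : Filter ι), y n ∈ U := hy hU
  obtain ⟨n, h2, h3, w, hw1, hw2⟩ := (h.and (hyU.and (hz W hW))).exists
  exact hUW (mk_mem_prod h3 hw1) (h2 w hw2)

theorem closed_rel2 {X : Type*} [TopologicalSpace X] (𝒰 : Ultrafilter ι) (C : ι → Set X)
    (R : Set (X × X)) (hR : IsClosed R)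
    (h : ∀ᶠ n in (𝒰 : Filter ι), ∀ a ∈ C n, ∀ b ∈ C n, (a, b) ∈ R) (a : X) (ha : a ∈ UL 𝒰 C)
    (b : X) (hb : b ∈ UL 𝒰 C) : (a, b) ∈ R := by
  by_contra hcon
  have h1 : Rᶜ ∈ 𝓝 (a, b) := hR.isOpen_compl.mem_nhds hcon
  rw [nhds_prod_eq, mem_prod_iff] at h1
  obtain ⟨U, hU, W, hW, hUW⟩ := h1
  obtain ⟨n, h2, ⟨u, hu1, hu2⟩, w, hw1, hw2⟩ := (h.and ((ha U hU).and (hb W hW))).exists
  exact hUW (mk_mem_prod hu1 hw1) (h2 u hu2 w hw2)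

end Pool.Agent.Q227.AL
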