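import Pool.Agent.Q227.AL.Man
import Pool.Agent.Q227.AL.UL

set_option autoImplicit false
set_option linter.unusedSectionVars false

open Filter Topology Set Metric
open scoped Manifold ContDiff

namespace Pool.Agent.Q227.AL

open Pool.Agent.H721R2 Pool.Agent.H789R2.AN Pool.Agent.H789R2.GP Pool.Agent.W740.TC
open Pool.Agent.TH289.K Pool.Agent.TH289.L
open Pool.Agent.W740.TU (anosov_symm)
open Pool.Agent.Q227.AT (Rec RecK back_small back_tendsto back_zero)

section met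

variable {X : Type*} [MetricSpace X] [CompactSpace X]

/-- a finite family of recurrent functions that is light on local unstable sets -/
theorem exists_light_family (f : X ≃ₜ X) {r : ℝ} (hr : 0 < r)
    (hexp : ∀ x y, (∀ n, dist (f^[n] x) (f^[n] y) < r) →
      (∀ n, dist (f.symm^[n] x) (f.symm^[n] y) < r) → x = y)
    {𝒲 : Set (X × X)} (h𝒲 : 𝒲 ∈ 𝓝ˢ (diagonal X))
    (hsep : ∀ C : Set X, IsCompact C → IsPreconnected C → C.Nontrivial →
      (∀ n : ℕ, ∀ x ∈ C, ∀ y ∈ C, (f.symm^[n] x, f.symm^[n] y) ∈ 𝒲) →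
      ∃ u, Rec f u ∧ ∃ x ∈ C, ∃ y ∈ C, u x ≠ u y) :
    ∃ (p K : ℕ) (u : Fin p → C(X, AddCircle (1 : ℝ))), (∀ i, RecK f K (u i)) ∧
      ∃ ρ > 0, ∀ C : Set X, IsCompact C → IsPreconnected C →
        (∀ n : ℕ, ∀ x ∈ C, ∀ y ∈ C, dist (f.symm^[n] x) (f.symm^[n] y) < ρ) →
        (∀ x ∈ C, ∀ y ∈ C, ∀ (i : Fin p) (j : Fin K),
          u i (f^[(j : ℕ)] x) = u i (f^[(j : ℕ)] y)) → C.Subsingleton := by
  classical
  rw [nhdsSet_diagonal_eq_uniformity] at h𝒲
  obtain ⟨ρ, hρ, hρ'⟩ := Metric.mem_uniformity_dist.mp h𝒲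
  set s := min r (ρ / 2) with hs
  have hs0 : 0 < s := lt_min hr (half_pos hρ)
  obtain ⟨δ', hδ'0, hδ'⟩ := Metric.uniformContinuous_iff.mp
    (CompactSpace.uniformContinuous_of_continuous f.continuous) s hs0
  set δ := min δ' s with hδ
  have hδ0 : 0 < δ := lt_min hδ'0 hs0
  have hδs : δ ≤ s := min_le_right _ _
  have hsr : s ≤ r := min_le_left _ _
  by_contra hcon
  push Not at hcon
  let ord : {u : C(X, AddCircle (1 : ℝ)) // Rec f u} → ℕ := fun u => u.2.choose
  have hord : ∀ u, RecK f (ord u) u.1 := fun u => u.2.choose_spec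
  have hbad : ∀ F : Finset {u : C(X, AddCircle (1 : ℝ)) // Rec f u}, ∃ (S : Set X) (x y : X),
      IsPreconnected S ∧ x ∈ S ∧ y ∈ S ∧ δ ≤ dist x y ∧
      (∀ n : ℕ, ∀ a ∈ S, ∀ b ∈ S, dist (f.symm^[n] a) (f.symm^[n] b) ≤ s) ∧
      ∀ u ∈ F, ∀ a ∈ S, ∀ b ∈ S, u.1 a = u.1 b := by
    intro F
    set K := F.sup ord with hK
    let en := F.equivFin
    obtain ⟨C, hC1, hC2, hC3, hC4, hC5⟩ := hcon F.card K (fun i => (en.symm i).1.1)
      (fun i => (hord (en.symm i).1).mono (Finset.le_sup (f := ord) (en.symm i).2)) δ hδ0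
    obtain ⟨x₀, hx₀, y₀, hy₀, hne⟩ := hC5
    have hex : ∃ n, ∃ x ∈ C, ∃ y ∈ C, δ ≤ dist (f^[n] x) (f^[n] y) := by
      by_contra hcon2
      push Not at hcon2
      exact hne (hexp x₀ y₀ (fun n => (hcon2 n x₀ hx₀ y₀ hy₀).trans_le (hδs.trans hsr))
        (fun n => (hC3 n x₀ hx₀ y₀ hy₀).trans_le (hδs.trans hsr)))
    set n := Nat.find hex with hn
    obtain ⟨x, hx, y, hy, hxy⟩ := Nat.find_spec hex
    have hn2 : ∀ m < n, ∀ a ∈ C, ∀ b ∈ C, dist (f^[m] a) (f^[m] b) < δ := by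
      intro m hm a ha b hb
      have := Nat.find_min hex hm
      push Not at this
      exact this a ha b hb
    have hn0 : n ≠ 0 := by
      intro h0
      rw [← hn, h0] at hxy
      have := hC3 0 x hx y hy
      simp only [Function.iterate_zero, id] at hxy this
      linarith
    obtain ⟨l, hl⟩ := Nat.exists_eq_succ_of_ne_zero hn0
    have hn3 : ∀ a ∈ C, ∀ b ∈ C, dist (f^[n] a) (f^[n] b) < s := by
      intro a ha b hb
      rw [hl, Function.iterate_succ_apply', Function.iterate_succ_apply']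
      apply hδ'
      exact (hn2 l (by omega) a ha b hb).trans_le (min_le_left _ _)
    refine ⟨f^[n] '' C, f^[n] x, f^[n] y, hC2.image _ (f.continuous.iterate n).continuousOn,
      ⟨x, hx, rfl⟩, ⟨y, hy, rfl⟩, hxy, ?_, ?_⟩
    · rintro m _ ⟨a, ha, rfl⟩ _ ⟨b, hb, rfl⟩
      rcases lt_trichotomy m n with h | h | h
      · have e1 : ∀ z : X, f.symm^[m] (f^[n] z) = f^[n - m] z := fun z => by
          have : n = m + (n - m) := by omega
          conv_lhs => rw [this]
          rw [Function.iterate_add_apply, iterL]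
        rw [e1, e1]
        rcases Nat.eq_zero_or_pos m with h0 | h0
        · rw [h0, Nat.sub_zero]; exact (hn3 a ha b hb).le
        · exact ((hn2 (n - m) (by omega) a ha b hb).trans_le hδs).le
      · rw [h, iterL, iterL]
        have := hC3 0 a ha b hb
        simp only [Function.iterate_zero, id] at this
        exact (this.trans_le hδs).le
      · have e1 : ∀ z : X, f.symm^[m] (f^[n] z) = f.symm^[m - n] z := fun z => by
          have : m = (m - n) + n := by omega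
          conv_lhs => rw [this]
          rw [Function.iterate_add_apply, iterL]
        rw [e1, e1]
        exact ((hC3 _ a ha b hb).trans_le hδs).le
    · rintro u hu _ ⟨a, ha, rfl⟩ _ ⟨b, hb, rfl⟩
      have hRec : RecK f K u.1 := (hord u).mono (Finset.le_sup (f := ord) hu)
      refine hRec.all (fun j => ?_) n
      have h3 := hC4 a ha b hb (en ⟨u, hu⟩) j
      simpa using h3
  choose S x y hS1 hS2 hS3 hS4 hS5 hS6 using hbad
  let 𝒰 : Ultrafilter (Finset {u : C(X, AddCircle (1 : ℝ)) // Rec f u}) := Ultrafilter.of atTop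
  have h𝒰 : (𝒰 : Filter (Finset {u : C(X, AddCircle (1 : ℝ)) // Rec f u})) ≤ atTop :=
    Ultrafilter.of_le _
  obtain ⟨x₀, hx₀⟩ := exists_lim 𝒰 x
  obtain ⟨y₀, hy₀⟩ := exists_lim 𝒰 y
  have hxL : x₀ ∈ UL 𝒰 S := mem_UL 𝒰 S x (Eventually.of_forall hS2) x₀ hx₀
  have hyL : y₀ ∈ UL 𝒰 S := mem_UL 𝒰 S y (Eventually.of_forall hS3) y₀ hy₀
  have hge : δ ≤ dist x₀ y₀ := ge_of_tendsto (hx₀.dist hy₀) (Eventually.of_forall hS4)
  obtain ⟨u, hu, a, ha, b, hb, hab⟩ := hsep (UL 𝒰 S) (isClosed_UL 𝒰 S).isCompact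
    (isPreconnected_UL 𝒰 S hS1) ⟨x₀, hxL, y₀, hyL, fun h => by
      rw [h, dist_self] at hge
      linarith⟩ (fun n a ha b hb => by
      apply hρ'
      have hcl : IsClosed {p : X × X | dist (f.symm^[n] p.1) (f.symm^[n] p.2) ≤ s} :=
        isClosed_le (((f.symm.continuous.iterate n).comp continuous_fst).dist
          ((f.symm.continuous.iterate n).comp continuous_snd)) continuous_const
      have h1 := closed_rel2 𝒰 S _ hcl (Eventually.of_forall fun F => hS5 F n) a ha b hb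
      have h2 : dist (f.symm^[n] a) (f.symm^[n] b) ≤ s := h1
      exact (h2.trans (min_le_right _ _)).trans_lt (half_lt_self hρ))
  apply hab
  have hcl : IsClosed {p : X × X | u p.1 = u p.2} :=
    isClosed_eq (u.continuous.comp continuous_fst) (u.continuous.comp continuous_snd)
  have h1 : ∀ᶠ F in (𝒰 : Filter (Finset {u : C(X, AddCircle (1 : ℝ)) // Rec f u})),
      ∀ a ∈ S F, ∀ b ∈ S F, (a, b) ∈ {p : X × X | u p.1 = u p.2} := by
    refine h𝒰 ((eventually_ge_atTop {(⟨u, hu⟩ : {u : C(X, AddCircle (1 : ℝ)) // Rec f u})}).mono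
      fun F hF a ha b hb => ?_)
    exact hS6 F ⟨u, hu⟩ (Finset.singleton_subset_iff.mp hF) a ha b hb
  exact closed_rel2 𝒰 S _ hcl h1 a ha b hb

end met

section manifold

variable {E : Type*} [NormedAddCommGroup E] [NormedSpace ℝ E] [FiniteDimensional ℝ E]
  {M : Type*} [TopologicalSpace M] [T2Space M] [CompactSpace M] [ConnectedSpace M]
  [ChartedSpace E M] [IsManifold 𝓘(ℝ, E) ∞ M]

/-- an arbitrary finite index set -/
theorem man_light_fin (f : Diffeomorph 𝓘(ℝ, E) 𝓘(ℝ, E) M M 1)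
    (Es Eu : ∀ x : M, Submodule ℝ (TangentSpace 𝓘(ℝ, E) x)) (hA : IsAnosov f Es Eu)
    {ι : Type} [Fintype ι] (φ : M → ι → AddCircle (1 : ℝ)) (hφ : ∀ a, Continuous fun x => φ x a)
    (co : ι → ι → ℤ) (c : ι → AddCircle (1 : ℝ))
    (hφf : ∀ x i, φ (f x) i = ∑ j, co i j • φ x j + c i)
    (hL : ∃ 𝒰 ∈ 𝓝ˢ (diagonal M), ∀ C : Set M, IsCompact C → IsPreconnected C →
      (∀ n : ℕ, ∀ x ∈ C, ∀ y ∈ C, (f.symm^[n] x, f.symm^[n] y) ∈ 𝒰) →
      (∀ x ∈ C, ∀ y ∈ C, φ x = φ y) → C.Subsingleton) : GPS f.toHomeomorph ∧ TopTransitive f ∧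
      ∃ q : E → M, IsCoveringMap q ∧ Function.Surjective q := by
  classical
  let e := Fintype.equivFin ι
  refine man_light_aff f Es Eu hA (k := Fintype.card ι) (fun x i => φ x (e.symm i))
    (continuous_pi fun i => hφ _) (fun i j => co (e.symm i) (e.symm j)) (fun i => c (e.symm i))
    (fun x i => ?_) ?_
  · rw [hφf]
    congr 1
    exact (Equiv.sum_comp e.symm (fun j => co (e.symm i) j • φ x j)).symm
  · obtain ⟨𝒰, h1, h2⟩ := hL
    refine ⟨𝒰, h1, fun C k1 k2 k3 k4 => h2 C k1 k2 k3 fun x hx y hy => ?_⟩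
    funext a
    have := congrFun (k4 x hx y hy) (e a)
    simpa using this

/-- Functions with a recurrence that are not constant on small continua of unstable leaves. -/
theorem man_fam (f : Diffeomorph 𝓘(ℝ, E) 𝓘(ℝ, E) M M 1)
    (Es Eu : ∀ x : M, Submodule ℝ (TangentSpace 𝓘(ℝ, E) x)) (hA : IsAnosov f Es Eu)
    {𝒲 : Set (M × M)} (h𝒲 : 𝒲 ∈ 𝓝ˢ (diagonal M))
    (hsep : ∀ C : Set M, IsCompact C → IsPreconnected C → C.Nontrivial →
      (∀ n : ℕ, ∀ x ∈ C, ∀ y ∈ C, (f.symm^[n] x, f.symm^[n] y) ∈ 𝒲) →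
      ∃ u, Rec f u ∧ ∃ x ∈ C, ∃ y ∈ C, u x ≠ u y) : GPS f.toHomeomorph ∧ TopTransitive f ∧
      ∃ q : E → M, IsCoveringMap q ∧ Function.Surjective q := by
  classical
  obtain ⟨p, K, u, hu, hinjU⟩ : ∃ (p K : ℕ) (u : Fin p → C(M, AddCircle (1 : ℝ))),
      (∀ i, RecK f K (u i)) ∧
      ∃ 𝒰 ∈ 𝓝ˢ (diagonal M), ∀ C : Set M, IsCompact C → IsPreconnected C →
        (∀ n : ℕ, ∀ x ∈ C, ∀ y ∈ C, (f.symm^[n] x, f.symm^[n] y) ∈ 𝒰) →
        (∀ x ∈ C, ∀ y ∈ C, (fun (a : Fin p × Fin K) => u a.1 (f^[(a.2 : ℕ)] x)) =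
          (fun (a : Fin p × Fin K) => u a.1 (f^[(a.2 : ℕ)] y))) → C.Subsingleton := by
    obtain ⟨m, ee, hee, hemb, hinj⟩ :=
      exists_embedding_euclidean_of_compact (I := 𝓘(ℝ, E)) (M := M)
    let _ : MetricSpace M := hemb.isEmbedding.comapMetricSpace ee
    have hiso : ∀ x y : M, dist x y = ‖ee x - ee y‖ := fun x y => dist_eq_norm (ee x) (ee y)
    have he1 : ContMDiff 𝓘(ℝ, E) (𝓡 m) 1 ee := hee.of_le (by simp)
    obtain ⟨n, S, hn, hg, hSe, hVs, hVu⟩ := exists_sys_ge hiso he1 hinj f Es Eu hA 1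
    have hgi : ∀ x, S.g x = (f.toHomeomorph)^[n] x := fun x => by
      rw [hg]; rfl
    obtain ⟨c', h⟩ := exists_LP S
    have hgn : ∀ (j : ℕ) (z : M), S.g^[j] z = f.toHomeomorph^[n * j] z := by
      intro j
      induction j with
      | zero => intro z; rfl
      | succ j ih =>
        intro z
        rw [Function.iterate_succ_apply, ih, hgi, ← Function.iterate_add_apply, Nat.mul_succ]
    have hgs : ∀ (j : ℕ) (z : M), S.g.symm^[j] z = f.toHomeomorph.symm^[n * j] z := by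
      intro j z
      apply (S.g.injective.iterate j)
      rw [iterR, hgn, iterR]
    obtain ⟨p, K, u, h1, ρ, hρ, h2⟩ := exists_light_family f.toHomeomorph h.c_pos
      (fun x y h1 h2 => by
        refine expansive h (fun j => ?_) (fun j => ?_)
        · rw [hgn, hgn]; exact (h1 _).le
        · rw [hgs, hgs]; exact (h2 _).le) h𝒲 hsep
    refine ⟨p, K, u, h1, {q | dist q.1 q.2 < ρ}, ?_, fun C k1 k2 k3 k4 => ?_⟩
    · rw [nhdsSet_diagonal_eq_uniformity]
      exact Metric.dist_mem_uniformity hρ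
    · exact h2 C k1 k2 (fun n x hx y hy => k3 n x hx y hy)
        (fun x hx y hy i j => congrFun (k4 x hx y hy) (i, j))
  choose c b hcb using hu
  refine man_light_fin f Es Eu hA (ι := Fin p × Fin K) (fun x a => u a.1 (f^[(a.2 : ℕ)] x))
    (fun a => (u a.1).continuous.comp (f.continuous.iterate _))
    (fun a a' => if a.2.1 + 1 = K then (if a'.1 = a.1 then c a.1 a'.2 else 0) else
      (if a'.1 = a.1 ∧ a'.2.1 = a.2.1 + 1 then 1 else 0))
    (fun a => if a.2.1 + 1 = K then b a.1 else 0) (fun x a => ?_) hinjU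
  obtain ⟨i, j⟩ := a
  show u i (f^[(j : ℕ)] (f x)) = _
  rw [← Function.iterate_succ_apply]
  by_cases hj : j.1 + 1 = K
  · simp only [hj, if_true]
    rw [show (j : ℕ).succ = K from hj, hcb i x, Fintype.sum_prod_type]
    congr 1
    rw [Finset.sum_eq_single i]
    · simp
    · intro i' _ hi'
      simp [hi']
    · simp
  · simp only [hj, if_false, add_zero]
    have hj' : j.1 + 1 < K := by
      have := j.2
      omega
    rw [Finset.sum_eq_single (i, (⟨j.1 + 1, hj'⟩ : Fin K))]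
    · simp
    · rintro ⟨i', j'⟩ _ hne
      rw [if_neg, zero_smul]
      rintro ⟨h1, h2⟩
      apply hne
      ext
      · exact congrArg Fin.val h1
      · exact h2
    · simp

end manifold

end Pool.Agent.Q227.AL
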