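import Pool.Agent.Q227.AL.Slide

set_option autoImplicit false
set_option linter.unusedSectionVars false

open Filter Topology Set Metric
open scoped Manifold ContDiff

namespace Pool.Agent.Q227.AL

open Pool.Agent.H721R2 Pool.Agent.H789R2.AN Pool.Agent.H789R2.GP Pool.Agent.W740.TC
open Pool.Agent.TH289.K Pool.Agent.TH289.L
open Pool.Agent.Q227.AT (back_small back_tendsto back_zero)

section abs

variable {X : Type*} [MetricSpace X] [CompactSpace X]
  {V : Type*} [NormedAddCommGroup V] [NormedSpace ℝ V] [FiniteDimensional ℝ V]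

/-- on a local unstable set the torus map is determined by the cocycle -/
theorem kappa_zero {f : X ≃ₜ X} {k : ℕ} (D : TD f k V) (he : ∀ x y, D.e x = D.e y)
    {Vc : Type*} [NormedAddCommGroup Vc] [NormedSpace ℂ Vc] [FiniteDimensional ℂ Vc]
    (Pc : (Fin k → ℝ) → Vc) (hPcc : Continuous Pc) (hPc0 : Pc 0 = 0) (Tc : Module.End ℂ Vc)
    (hPc : ∀ v, Pc (D.Am v) = Tc (Pc v)) (hTc : ∀ ν : ℂ, Tc.HasEigenvalue ν → ‖ν‖ ≤ 1)
    (hn : ∀ v, D.P v = 0 → Pc v = 0 → v = 0)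
    {g : X ≃ₜ X} {N : ℕ} (hN : 1 ≤ N) (hg : ∀ x, g x = f^[N] x) {c : ℝ} (h : LP g c) :
    ∃ η > 0, ∀ x y, SR g.symm η x y → D.κ x y = 0 → D.φ x = D.φ y := by
  obtain ⟨η₀, hη₀⟩ := D.exists_sc
  obtain ⟨η, hη, h1⟩ := back_small hN hg hη₀.1
  refine ⟨min η c, lt_min hη h.c_pos, fun x y hxy h0 => ?_⟩
  have h2 := h1 x y (hxy.mono (min_le_left _ _))
  have h3 := back_tendsto hN hg h (hxy.mono (min_le_right _ _))
  have hb : D.b y - D.b x = 0 := by
    have : D.b x = D.b y := by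
      unfold TD.b
      refine tsum_congr fun j => ?_
      rw [he (f^[j] x) (f^[j] y)]
    rw [this, sub_self]
  have hP : D.P (D.ψ x y) = 0 := by
    have h4 : D.P (D.ψ x y) + (D.b y - D.b x) = 0 := h0
    rwa [hb, add_zero] at h4
  set w : ℕ → Vc := fun m => Pc (D.ψ (f.symm^[m] x) (f.symm^[m] y)) with hw
  have h5 : Pc (D.ψ x y) = 0 := by
    refine back_zero Tc hTc w (fun m => ?_) ?_
    · show Tc (Pc _) = Pc _
      rw [← hPc]
      congr 1
      have e1 : ∀ z : X, f.symm^[m] z = f (f.symm^[m + 1] z) := fun z => by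
        rw [Function.iterate_succ_apply' f.symm, f.apply_symm_apply]
      have e2 : ‖D.Am (D.ψ (f.symm^[m + 1] x) (f.symm^[m + 1] y)) +
          (D.e (f.symm^[m + 1] y) - D.e (f.symm^[m + 1] x))‖ < 1 / 2 :=
        hη₀.2.2 _ _ (h2 (m + 1))
      have e3 := D.ψ_f e2
      rw [he (f.symm^[m + 1] y) (f.symm^[m + 1] x), sub_self, add_zero] at e3
      rw [e1 x, e1 y, e3]
    · have e1 : Tendsto (fun m => D.ψ (f.symm^[m] x) (f.symm^[m] y)) atTop (𝓝 0) := by
        rw [Metric.tendsto_atTop]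
        intro ε hε
        obtain ⟨δ, hδ, h6⟩ := D.ψ_small hε
        obtain ⟨m₀, hm₀⟩ := Metric.tendsto_atTop.mp h3 δ hδ
        refine ⟨m₀, fun m hm => ?_⟩
        rw [dist_zero_right]
        apply h6
        have := hm₀ m hm
        rwa [Real.dist_eq, sub_zero, abs_of_nonneg dist_nonneg] at this
      have e2 := (hPcc.tendsto 0).comp e1
      rw [hPc0] at e2
      exact e2
  have h6 : D.ψ x y = 0 := hn _ hP h5
  funext i
  have h7 := D.ψ_coe x y i
  rw [h6] at h7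
  have h8 : ((0 : ℝ) : AddCircle (1 : ℝ)) = D.φ y i - D.φ x i := h7
  rw [AddCircle.coe_zero] at h8
  exact (sub_eq_zero.mp h8.symm).symm

/-- the transverse cocycle of an iterate -/
theorem exists_CL {f : X ≃ₜ X} {k : ℕ} (D : TD f k V) {g : X ≃ₜ X} {N : ℕ}
    (hg : ∀ x, g x = f^[N] x) (hN : ∀ v, ‖D.B.symm^[N] v‖ ≤ ‖v‖ / 2) :
    ∃ C : CL g V, C.κ = D.κ := by
  obtain ⟨η₀, hη₀⟩ := D.exists_sc
  obtain ⟨δ, hδ, h1⟩ := T1_unif f N hη₀.1
  have l2 : min η₀ δ ≤ η₀ := min_le_left _ _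
  have l3 : min η₀ δ ≤ δ := min_le_right _ _
  refine ⟨{
    B := iterE D.B N
    hB := fun v => by rw [iterE_symm_apply]; exact hN v
    κ := D.κ
    η := min η₀ δ
    η_pos := lt_min hη₀.1 hδ
    add := fun x y z hxy hyz _ => TD.κ_add hη₀ (hxy.trans_le l2) (hyz.trans_le l2)
    small := fun ε hε => D.κ_small f.continuous hε
    equi := fun x y hxy _ => ?_ }, rfl⟩
  rw [hg, hg, iterE_apply]
  have h2 : ∀ j ≤ N, D.κ (f^[j] x) (f^[j] y) = D.B^[j] (D.κ x y) := by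
    intro j
    induction j with
    | zero => intro _; rfl
    | succ j ih =>
      intro hj
      rw [Function.iterate_succ_apply', Function.iterate_succ_apply',
        Function.iterate_succ_apply' D.B, ← ih (by omega)]
      exact TD.κ_f hη₀ (h1 j (by omega) x y (hxy.trans_le l3))
  exact h2 N le_rfl

end abs

section manifold

variable {E : Type*} [NormedAddCommGroup E] [NormedSpace ℝ E] [FiniteDimensional ℝ E]
  {M : Type*} [TopologicalSpace M] [T2Space M] [CompactSpace M] [ConnectedSpace M]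
  [ChartedSpace E M] [IsManifold 𝓘(ℝ, E) ∞ M]

/-- Anosov diffeomorphisms with an affine toral map that is light on the unstable leaves. -/
theorem man_light_aff (f : Diffeomorph 𝓘(ℝ, E) 𝓘(ℝ, E) M M 1)
    (Es Eu : ∀ x : M, Submodule ℝ (TangentSpace 𝓘(ℝ, E) x)) (hA : IsAnosov f Es Eu)
    {k : ℕ} (φ : M → Fin k → AddCircle (1 : ℝ)) (hφ : Continuous φ)
    (A : Matrix (Fin k) (Fin k) ℤ) (c : Fin k → AddCircle (1 : ℝ))
    (hφf : ∀ x i, φ (f x) i = ∑ j, A i j • φ x j + c i)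
    (hL : ∃ 𝒰 ∈ 𝓝ˢ (diagonal M), ∀ C : Set M, IsCompact C → IsPreconnected C →
      (∀ n : ℕ, ∀ x ∈ C, ∀ y ∈ C, (f.symm^[n] x, f.symm^[n] y) ∈ 𝒰) →
      (∀ x ∈ C, ∀ y ∈ C, φ x = φ y) → C.Subsingleton) : GPS f.toHomeomorph ∧ TopTransitive f ∧
      ∃ q : E → M, IsCoveringMap q ∧ Function.Surjective q := by
  obtain ⟨𝒰, h𝒰, hLL⟩ := hL
  have hlift : ∀ i, ∃ r : ℝ, ((r : ℝ) : AddCircle (1 : ℝ)) = c i := fun i =>
    QuotientAddGroup.mk_surjective (c i)
  choose r hr using hlift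
  set e : M → Fin k → ℝ := fun _ => r with he
  have hec : Continuous e := continuous_const
  have hφe : ∀ x i, φ (f x) i = ∑ j, A i j • φ x j + ((e x i : ℝ) : AddCircle (1 : ℝ)) := by
    intro x i
    rw [hφf x i, ← hr i]
  set T := cx A with hT
  have hc := W_compl T
  let Pu : (Fin k → ℝ) →ₗ[ℝ] Wu T :=
    (((Wu T).projectionOnto (Wc T) hc).restrictScalars ℝ) ∘ₗ inc k
  let Pc : (Fin k → ℝ) →ₗ[ℝ] Wc T :=
    (((Wc T).projectionOnto (Wu T) hc.symm).restrictScalars ℝ) ∘ₗ inc k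
  have hsum : ∀ v, inc k v = (Pu v : Fin k → ℂ) + (Pc v : Fin k → ℂ) := fun v =>
    (Submodule.projection_add_projection_eq_self hc (inc k v)).symm
  have huniq : ∀ (a a' : Wu T) (b b' : Wc T),
      (a : Fin k → ℂ) + (b : Fin k → ℂ) = (a' : Fin k → ℂ) + (b' : Fin k → ℂ) →
      a = a' ∧ b = b' := by
    intro a a' b b' h
    have h1 : (a : Fin k → ℂ) - a' = b' - b := by
      rw [sub_eq_sub_iff_add_eq_add, h, add_comm]
    have h2 : (a : Fin k → ℂ) - a' ∈ Wu T := (Wu T).sub_mem a.2 a'.2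
    have h3 : (a : Fin k → ℂ) - a' ∈ Wc T := by rw [h1]; exact (Wc T).sub_mem b'.2 b.2
    have h4 := hc.disjoint.le_bot ⟨h2, h3⟩
    rw [Submodule.mem_bot] at h4
    refine ⟨Subtype.ext (sub_eq_zero.mp h4), Subtype.ext ?_⟩
    rw [h4] at h1
    exact (sub_eq_zero.mp h1.symm).symm
  have hcomm : ∀ v : Fin k → ℝ, Pu (fun i => ∑ j, (A i j : ℝ) * v j) = Tu T (Pu v) ∧
      Pc (fun i => ∑ j, (A i j : ℝ) * v j) = Tc T (Pc v) := by
    intro v
    apply huniq
    rw [← hsum, ← cx_inc, Tu_coe, Tc_coe, ← map_add, ← hsum]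
  have hpowu : ∀ (n : ℕ) (v : Wu T), (Tu T)^[n] v = ((Tu T) ^ n) v := fun n v => by
    rw [Module.End.pow_apply]
  have hBexp : Expanding ((Tu T).restrictScalars ℝ : Wu T →ₗ[ℝ] Wu T) := by
    obtain ⟨C, l, h0, h1, h2⟩ := Tu_exp T
    refine ⟨C, l, h0, h1, fun n v => ?_⟩
    have h3 : ((Tu T).restrictScalars ℝ : Wu T →ₗ[ℝ] Wu T)^[n] v = ((Tu T) ^ n) v := by
      rw [← hpowu]
      rfl
    rw [h3]
    exact h2 n v
  have hG : GPS f.toHomeomorph := by
    obtain ⟨m, ee, hee, hemb, hinj⟩ :=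
      exists_embedding_euclidean_of_compact (I := 𝓘(ℝ, E)) (M := M)
    let _ : MetricSpace M := hemb.isEmbedding.comapMetricSpace ee
    have hiso : ∀ x y : M, dist x y = ‖ee x - ee y‖ := fun x y => dist_eq_norm (ee x) (ee y)
    have he1 : ContMDiff 𝓘(ℝ, E) (𝓡 m) 1 ee := hee.of_le (by simp)
    obtain ⟨D, hD1, hDA, hD2, N₀, hN₀, hDe⟩ : ∃ (D : TD f.toHomeomorph k (Wu T)),
        D.φ = φ ∧ D.A = A ∧ (D.P : (Fin k → ℝ) → Wu T) = Pu ∧
        ∃ N₀ : ℕ, (∀ n ≥ N₀, ∀ v, ‖D.B.symm^[n] v‖ ≤ ‖v‖ / 2) ∧ ∀ x y, D.e x = D.e y := by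
      obtain ⟨D, hD1, hDA, hD2, N₀, hN₀⟩ := exists_TD f.toHomeomorph φ hφ A e hec hφe
        ((Tu T).restrictScalars ℝ : Wu T →ₗ[ℝ] Wu T) hBexp Pu (fun v => (hcomm v).1)
      let D' : TD f.toHomeomorph k (Wu T) :=
        { D with
          φ := φ
          cφ := hφ
          A := A
          e := e
          ce := hec
          eq := hφe
          PA := fun v => by rw [← hDA]; exact D.PA v }
      exact ⟨D', rfl, rfl, hD2, N₀, hN₀, fun x y => rfl⟩
    obtain ⟨n, S, hn, hg, hSe, hVs, hVu⟩ := exists_sys_ge hiso he1 hinj f Es Eu hA (max N₀ 1)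
    have hn1 : 1 ≤ n := (le_max_right _ _).trans hn
    have hgi : ∀ x, S.g x = (f.toHomeomorph)^[n] x := fun x => by
      rw [hg]; rfl
    obtain ⟨c', h⟩ := exists_LP S
    have : ProperSpace E := FiniteDimensional.proper_real E
    have hX : ULC M := ulc_of_charted (X := M) (E := E)
    have hPcc : Continuous Pc := LinearMap.continuous_of_finiteDimensional Pc
    obtain ⟨η₁, hη₁, hκ⟩ := kappa_zero D hDe Pc hPcc (map_zero Pc) (Tc T) (fun v => by
        have h2 : D.Am v = fun i => ∑ j, (A i j : ℝ) * v j := by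
          unfold TD.Am
          rw [hDA]
        rw [h2]
        exact (hcomm v).2) (Tc_eig T) (fun v hv1 hv2 => by
        rw [hD2] at hv1
        have h2 : inc k v = 0 := by
          rw [hsum, hv1, hv2]
          simp
        rw [← norm_eq_zero, ← inc_norm, h2, norm_zero]) hn1 hgi h
    obtain ⟨C, hC⟩ := exists_CL D hgi (hN₀ n ((le_max_left _ _).trans hn))
    rw [nhdsSet_diagonal_eq_uniformity] at h𝒰
    obtain ⟨ρ, hρ, hρ'⟩ := Metric.mem_uniformity_dist.mp h𝒰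
    obtain ⟨ε₀, hε₀, hε₀'⟩ := back_small hn1 hgi hρ
    have hL' : ∀ S' : Set M, IsCompact S' → IsPreconnected S' →
        (∀ x ∈ S', ∀ y ∈ S', SR S.g.symm ε₀ x y) →
        (∀ x ∈ S', ∀ y ∈ S', φ x = φ y) → S'.Subsingleton := fun S' k1 k2 k3 k4 =>
      hLL S' k1 k2 (fun n x hx y hy => hρ' (hε₀' x y (k3 x hx y hy) n)) k4
    have hκ' : ∀ x y, SR S.g.symm η₁ x y → C.κ x y = 0 → φ x = φ y := by
      intro x y h1 h2
      rw [hC] at h2
      have h3 := hκ x y h1 h2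
      rwa [hD1] at h3
    have hlf := C.lf hX h (fun ε hε => C.light_unif h hε₀ hL' hη₁ hκ' hε)
    obtain ⟨c₁, hc₁, ⟨T₁⟩⟩ := exists_IQS h hX hlf
    exact gps_of_iqs hn1 hg h hc₁ T₁
  exact ⟨hG, man_self f Es Eu hA hG⟩

end manifold

end Pool.Agent.Q227.AL
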