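import Pool.Agent.Q227.AL.Fam

set_option autoImplicit false
set_option linter.unusedSectionVars false

open Filter Topology Set Metric
open scoped Manifold ContDiff

namespace Pool.Agent.Q227.AL

open Pool.Agent.H721R2 Pool.Agent.H789R2.AN Pool.Agent.H789R2.GP Pool.Agent.W740.TC
open Pool.Agent.TH289.K Pool.Agent.TH289.L
open Pool.Agent.Q227.AT (fsym_eq)

variable {E : Type*} [NormedAddCommGroup E] [NormedSpace ℝ E] [FiniteDimensional ℝ E]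
  {M : Type*} [TopologicalSpace M] [T2Space M] [CompactSpace M] [ConnectedSpace M]
  [ChartedSpace E M] [IsManifold 𝓘(ℝ, E) ∞ M]

/-- local unstable sets shrink -/
theorem man_shrink (f : Diffeomorph 𝓘(ℝ, E) 𝓘(ℝ, E) M M 1)
    (Es Eu : ∀ x : M, Submodule ℝ (TangentSpace 𝓘(ℝ, E) x)) (hA : IsAnosov f Es Eu) :
    ∃ 𝒰 ∈ 𝓝ˢ (diagonal M), ∀ C : Set M,
      (∀ n : ℕ, ∀ x ∈ C, ∀ y ∈ C, (f.symm^[n] x, f.symm^[n] y) ∈ 𝒰) →
      ∀ 𝒱 ∈ 𝓝ˢ (diagonal M), ∀ᶠ n : ℕ in atTop, ∀ x ∈ C, ∀ y ∈ C,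
        (f.symm^[n] x, f.symm^[n] y) ∈ 𝒱 := by
  obtain ⟨m, ee, hee, hemb, hinj⟩ :=
    exists_embedding_euclidean_of_compact (I := 𝓘(ℝ, E)) (M := M)
  let _ : MetricSpace M := hemb.isEmbedding.comapMetricSpace ee
  have hiso : ∀ x y : M, dist x y = ‖ee x - ee y‖ := fun x y => dist_eq_norm (ee x) (ee y)
  have he1 : ContMDiff 𝓘(ℝ, E) (𝓡 m) 1 ee := hee.of_le (by simp)
  obtain ⟨N, S, hn, hg, hSe, hVs, hVu⟩ := exists_sys_ge hiso he1 hinj f Es Eu hA 1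
  have hgi : ∀ x, S.g x = (f.toHomeomorph)^[N] x := fun x => by
    rw [hg]; rfl
  obtain ⟨c, h⟩ := exists_LP S
  have hgs : ∀ (j : ℕ) (z : M), S.g.symm^[j] z = f.toHomeomorph.symm^[N * j] z := by
    have hgn : ∀ (j : ℕ) (z : M), S.g^[j] z = f.toHomeomorph^[N * j] z := by
      intro j
      induction j with
      | zero => intro z; rfl
      | succ j ih =>
        intro z
        rw [Function.iterate_succ_apply, ih, hgi, ← Function.iterate_add_apply, Nat.mul_succ]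
    intro j z
    apply (S.g.injective.iterate j)
    rw [iterR, hgn, iterR]
  refine ⟨{p | dist p.1 p.2 < c}, ?_, fun C hC 𝒱 h𝒱 => ?_⟩
  · rw [nhdsSet_diagonal_eq_uniformity]
    exact Metric.dist_mem_uniformity h.c_pos
  rw [nhdsSet_diagonal_eq_uniformity] at h𝒱
  obtain ⟨ε, hε, h𝒱'⟩ := Metric.mem_uniformity_dist.mp h𝒱
  obtain ⟨δ, hδ, h1⟩ := T1_unif f.toHomeomorph.symm N hε
  have h5 : Tendsto (fun n : ℕ => c * (1 / 2 : ℝ) ^ n) atTop (𝓝 0) := by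
    have := (tendsto_pow_atTop_nhds_zero_of_lt_one (by norm_num : (0:ℝ) ≤ 1 / 2)
      (by norm_num)).const_mul c
    simpa using this
  obtain ⟨q₀, hq₀⟩ := eventually_atTop.mp ((tendsto_order.mp h5).2 δ hδ)
  refine eventually_atTop.mpr ⟨N * q₀, fun n hn' x hx y hy => h𝒱' ?_⟩
  have hxy : SR S.g.symm c x y := by
    intro j
    rw [hgs, hgs]
    exact (hC (N * j) x hx y hy).le
  show dist (f.toHomeomorph.symm^[n] x) (f.toHomeomorph.symm^[n] y) < ε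
  rw [fsym_eq hgi, fsym_eq hgi n y]
  refine h1 _ (Nat.mod_lt _ (by omega)).le _ _ (lt_of_le_of_lt (h.cU _ _ hxy _) (hq₀ _ ?_))
  exact (Nat.le_div_iff_mul_le (by omega)).mpr (by rwa [Nat.mul_comm])

theorem man_light (f : Diffeomorph 𝓘(ℝ, E) 𝓘(ℝ, E) M M 1)
    (Es Eu : ∀ x : M, Submodule ℝ (TangentSpace 𝓘(ℝ, E) x)) (hA : IsAnosov f Es Eu)
    {k : ℕ} (φ : M → Fin k → AddCircle (1 : ℝ)) (hφ : Continuous φ)
    (A : Matrix (Fin k) (Fin k) ℤ) (c : Fin k → AddCircle (1 : ℝ))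
    (hφf : ∀ x i, φ (f x) i = ∑ j, A i j • φ x j + c i)
    (hL : Light f.toHomeomorph.symm φ) : GPS f.toHomeomorph ∧ TopTransitive f ∧
      ∃ q : E → M, IsCoveringMap q ∧ Function.Surjective q := by
  obtain ⟨𝒰, h𝒰, h⟩ := man_shrink f Es Eu hA
  exact man_light_aff f Es Eu hA φ hφ A c hφf ⟨𝒰, h𝒰, fun C h1 h2 h3 h4 =>
    hL C h1 h2 (h C h3) h4⟩

end Pool.Agent.Q227.AL
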