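import Pool.Agent.Q227.AL.Coc

set_option autoImplicit false
set_option linter.unusedSectionVars false

open Filter Topology Set Metric unitInterval

namespace Pool.Agent.Q227.AL

open Pool.Agent.H789R2.AN Pool.Agent.H789R2.GP Pool.Agent.TH289.K Pool.Agent.TH289.L
open Pool.Agent.TH761.L289 (ULim isClosed_ULim mem_ULim exists_lim isPreconnected_ULim closed_rel)

variable {X : Type*} [MetricSpace X] [CompactSpace X] {g : X ≃ₜ X} {c : ℝ}
  {V : Type*} [NormedAddCommGroup V] [NormedSpace ℝ V] (C : CL g V)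

/-- unstable paths of bounded size slide along small stable displacements -/
theorem CL.slide_loc (hg : LP g c) :
    ∃ c₁ > 0, c₁ ≤ c ∧ ∀ j : ℕ, ∃ η > 0, ∀ (v : C(I, SM g.symm)) (s : X), SR g η (v 0).val s →
      (∀ t, SR g.symm c₁ (g.symm^[j] (v 0).val) (g.symm^[j] (v t).val)) →
      ∃ Γ : C(I, Pr g), (Γ 0).y = s ∧ (∀ t, (Γ t).x = (v t).val) ∧
        ∀ t, C.cu s (Γ t).y = C.cu (v 0).val (v t).val := by
  obtain ⟨br, δ, hδ, hbr, hsmall, huniq, hunif⟩ := exists_br hg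
  obtain ⟨η₁, hη₁, hη₁η, hst⟩ := C.exists_stable
  have hη := C.η_pos
  have hc := hg.c_pos
  obtain ⟨θ, hθ, hθ2⟩ := hsmall (min η₁ (C.η / 4)) (lt_min hη₁ (by positivity))
  set c₁ := min (min (δ / 2) (θ / 2)) (min (c / 3) (C.η / 4)) with hc₁
  have hc₁0 : 0 < c₁ := by positivity
  have b1 : c₁ ≤ δ / 2 := (min_le_left _ _).trans (min_le_left _ _)
  have b2 : c₁ ≤ θ / 2 := (min_le_left _ _).trans (min_le_right _ _)
  have b3 : c₁ ≤ c / 3 := (min_le_right _ _).trans (min_le_left _ _)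
  have b4 : c₁ ≤ C.η / 4 := (min_le_right _ _).trans (min_le_right _ _)
  refine ⟨c₁, hc₁0, by linarith, fun j => ?_⟩
  set η' := min (min (c / 3) (C.η / 4)) (min (min (δ / 4) (θ / 4)) η₁) with hη'
  have hη'0 : 0 < η' := by positivity
  have k1 : η' ≤ c / 3 := (min_le_left _ _).trans (min_le_left _ _)
  have k2 : η' ≤ C.η / 4 := (min_le_left _ _).trans (min_le_right _ _)
  have k3 : η' ≤ δ / 4 := (min_le_right _ _).trans ((min_le_left _ _).trans (min_le_left _ _))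
  have k4 : η' ≤ θ / 4 := (min_le_right _ _).trans ((min_le_left _ _).trans (min_le_right _ _))
  have k5 : η' ≤ η₁ := (min_le_right _ _).trans (min_le_right _ _)
  have hcm : ∀ x, g.symm (g x) = g (g.symm x) := fun x => by
    rw [g.symm_apply_apply, g.apply_symm_apply]
  obtain ⟨η, hη0, hmap⟩ := uc_map_iter (g := g) (φ := g.symm) hcm j η' hη'0
  refine ⟨η, hη0, fun v s has hau => ?_⟩
  have hq : SR g η' (g.symm^[j] (v 0).val) (g.symm^[j] s) := hmap _ _ has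
  obtain ⟨v', hv'⟩ := path_iter j v
  set s' := g.symm^[j] s with hs'
  have d2 : dist (v' 0).val s' ≤ η' := by rw [hv']; exact hq 0
  have d3 : ∀ t, dist (v' t).val s' ≤ c₁ + η' := by
    intro t
    have d1 : dist (v' 0).val (v' t).val ≤ c₁ := by rw [hv', hv']; exact hau t 0
    have := dist_triangle_left (v' t).val s' (v' 0).val
    linarith
  obtain ⟨Γ', hx', hy'⟩ := br_strip hg hbr hunif v' s' (fun t => by linarith [d3 t])
  obtain ⟨Γ, hx, hy⟩ := strip_iter j Γ'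
  have z0 : s' = br (v' 0).val s' := huniq _ _ _ (by linarith [d3 0])
    (by rw [hv']; exact hq.mono k1) (fun k => by rw [dist_self]; positivity)
  refine ⟨Γ, ?_, fun t => ?_, fun t => ?_⟩
  · rw [hy, hy', ← z0, hs', iterR]
  · rw [hx, hx', hv', iterR]
  · obtain ⟨z1, z2⟩ := hbr (v' t).val s' (by linarith [d3 t])
    obtain ⟨z3, z4⟩ := hθ2 (v' t).val s' (by linarith [d3 t])
    have hau' : SR g.symm c₁ (v' 0).val (v' t).val := by rw [hv', hv']; exact hau t
    have hq' : SR g η' (v' 0).val s' := by rw [hv']; exact hq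
    set a' := (v' 0).val with ha'
    set u' := (v' t).val with hu'
    set z := br u' s' with hz
    have d1 : dist a' u' ≤ c₁ := hau' 0
    have d4 : dist u' z ≤ C.η / 4 := (z3 0).trans (min_le_right _ _)
    have d5 : dist s' z ≤ C.η / 4 := (z4 0).trans (min_le_right _ _)
    have d6 : dist a' z < C.η := by
      have := dist_triangle a' u' z
      linarith
    have e1 := C.add a' u' z (by linarith) (by linarith) d6
    have e2 := C.add a' s' z (by linarith) (by linarith) d6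
    rw [hst u' z (z3.mono (min_le_left _ _)), add_zero] at e1
    rw [hst a' s' (hq'.mono k5), zero_add] at e2
    have e3 : C.cu a' u' = C.κ a' u' := C.cu_eq_κ (by linarith) hau'
    have e4 : C.cu s' z = C.κ s' z :=
      C.cu_eq_κ (ε := C.η / 4) (by linarith) (z4.mono (min_le_right _ _))
    have w1 : WS g.symm a' u' := WS.of_SR (hg.cU _ _ (hau'.mono (by linarith)))
    have w2 : WS g.symm s' z := WS.of_SR (hg.cU _ _ (z2.mono (by linarith)))
    have e5 := C.cu_iter w1 j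
    have e6 := C.cu_iter w2 j
    have f1 : g^[j] a' = (v 0).val := by rw [ha', hv', iterR]
    have f2 : g^[j] u' = (v t).val := by rw [hu', hv', iterR]
    have f3 : g^[j] s' = s := by rw [hs', iterR]
    rw [f1, f2] at e5
    rw [f3] at e6
    rw [hy, hy', e5, e3, ← e1, e2, ← e4, ← e6]

/-- the continuum belonging to one path -/
theorem CL.one_path (hg : LP g c) {ε' : ℝ} (hε' : 0 < ε') (hε'η : ε' < C.η) {ρ : ℝ}
    (β : C(I, SM g.symm)) (hβ : ∀ t, ‖C.cu (β 0).val (β t).val‖ ≤ ρ)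
    (hbad : ∃ t, ¬ SR g.symm ε' (β 0).val (β t).val) :
    ∃ (S : Set X) (x q : X), IsPreconnected S ∧ x ∈ S ∧ q ∈ S ∧ (∀ z ∈ S, SR g.symm ε' x z) ∧
      ε' ≤ dist (g x) (g q) ∧ ∀ z ∈ S, ‖C.κ x z‖ ≤ ρ := by
  classical
  have hex : ∃ N, ∀ t, SR g.symm ε' (g.symm^[N] (β 0).val) (g.symm^[N] (β t).val) := by
    obtain ⟨n, hn⟩ := path_small hg.symm β hε'
    exact ⟨n, hn n le_rfl⟩
  have hN := Nat.find_spec hex
  have hmin' := fun k (hk : k < Nat.find hex) => Nat.find_min hex hk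
  set N := Nat.find hex with hNdef
  have hN0 : N ≠ 0 := by
    intro h0
    rw [h0] at hN
    obtain ⟨t, ht⟩ := hbad
    exact ht (hN t)
  obtain ⟨j, hj⟩ := Nat.exists_eq_succ_of_ne_zero hN0
  have h1 := hmin' j (by omega)
  rw [not_forall] at h1
  obtain ⟨t, ht⟩ := h1
  have e1 : ∀ z : X, g (g.symm^[N] z) = g.symm^[j] z := fun z => by
    rw [hj, Nat.succ_eq_add_one, Function.iterate_succ_apply' g.symm, g.apply_symm_apply]
  have h2 : ε' ≤ dist (g (g.symm^[N] (β 0).val)) (g (g.symm^[N] (β t).val)) := by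
    by_contra h3
    push Not at h3
    apply ht
    intro i
    rcases i with _ | i
    · rw [e1, e1] at h3
      exact h3.le
    · have := hN t i
      rw [hj, Nat.succ_eq_add_one, ← Function.iterate_add_apply, ← Function.iterate_add_apply] at this
      rw [← Function.iterate_add_apply, ← Function.iterate_add_apply]
      rwa [show i + 1 + j = i + (j + 1) by omega]
  refine ⟨range (fun s : I => g.symm^[N] (β s).val), g.symm^[N] (β 0).val, g.symm^[N] (β t).val,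
    ?_, ⟨0, rfl⟩, ⟨t, rfl⟩, ?_, h2, ?_⟩
  · exact isPreconnected_range ((SM.continuous_iter_val N).comp β.continuous)
  · rintro _ ⟨s, rfl⟩
    exact hN s
  · rintro _ ⟨s, rfl⟩
    have w : WS g.symm (β 0).val (β s).val := WS_of_path hg.symm β 0 s
    show ‖C.κ (g.symm^[N] (β 0).val) (g.symm^[N] (β s).val)‖ ≤ ρ
    rw [← C.cu_eq_κ hε'η (hN s), C.cu_iter_symm w]
    refine (C.norm_iter N _).trans ?_
    have a1 : ((1 : ℝ) / 2) ^ N ≤ 1 := pow_le_one₀ (by norm_num) (by norm_num)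
    have a2 := hβ s
    have a3 := norm_nonneg (C.cu (β 0).val (β s).val)
    nlinarith

theorem CL.light_unif (hg : LP g c) {Y : Type*} {φ : X → Y} {ε₀ : ℝ} (hε₀ : 0 < ε₀)
    (hL : ∀ S : Set X, IsCompact S → IsPreconnected S → (∀ x ∈ S, ∀ y ∈ S, SR g.symm ε₀ x y) →
      (∀ x ∈ S, ∀ y ∈ S, φ x = φ y) → S.Subsingleton) {η₁ : ℝ} (hη₁ : 0 < η₁) (hφ : ∀ x y, SR g.symm η₁ x y → C.κ x y = 0 → φ x = φ y) {ε : ℝ}
    (hε : 0 < ε) : ∃ ρ > 0, ∀ β : C(I, SM g.symm),
      (∀ t, ‖C.cu (β 0).val (β t).val‖ ≤ ρ) → ∀ t, SR g.symm ε (β 0).val (β t).val := by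
  by_contra hcon
  push Not at hcon
  have hc := hg.c_pos
  have hη := C.η_pos
  set ε' := min (min ε (ε₀ / 2)) (min η₁ (C.η / 2)) with hε'
  have hε'0 : 0 < ε' := by positivity
  have l1 : ε' ≤ ε := (min_le_left _ _).trans (min_le_left _ _)
  have l2 : ε' ≤ ε₀ / 2 := (min_le_left _ _).trans (min_le_right _ _)
  have l3 : ε' ≤ η₁ := (min_le_right _ _).trans (min_le_left _ _)
  have l4 : ε' < C.η := ((min_le_right _ _).trans (min_le_right _ _)).trans_lt (half_lt_self hη)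
  have hseq : ∀ n : ℕ, ∃ (S : Set X) (x q : X), IsPreconnected S ∧ x ∈ S ∧ q ∈ S ∧
      (∀ z ∈ S, SR g.symm ε' x z) ∧ ε' ≤ dist (g x) (g q) ∧
      ∀ z ∈ S, ‖C.κ x z‖ ≤ 1 / ((n : ℝ) + 1) := by
    intro n
    obtain ⟨β, h1, t, h2⟩ := hcon (1 / ((n : ℝ) + 1)) (by positivity)
    exact C.one_path hg hε'0 l4 β h1 ⟨t, fun h3 => h2 (h3.mono l1)⟩
  choose S x q hCc hx hq hSR hgq hhz using hseq
  let 𝒰 : Ultrafilter ℕ := Filter.hyperfilter ℕ
  have h𝒰 : (𝒰 : Filter ℕ) ≤ atTop := Nat.hyperfilter_le_atTop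
  obtain ⟨x₀, hx₀⟩ := exists_lim 𝒰 x
  obtain ⟨q₀, hq₀⟩ := exists_lim 𝒰 q
  have hxL : x₀ ∈ ULim 𝒰 S := mem_ULim 𝒰 S x (Eventually.of_forall hx) x₀ hx₀
  have hqL : q₀ ∈ ULim 𝒰 S := mem_ULim 𝒰 S q (Eventually.of_forall hq) q₀ hq₀
  have hclSR := Pool.Agent.W740.TC.Coc.isClosed_SR g.symm ε'
  have hSR₀ : ∀ z ∈ ULim 𝒰 S, SR g.symm ε' x₀ z := fun z hz =>
    closed_rel 𝒰 S {p | SR g.symm ε' p.1 p.2} hclSR x x₀ hx₀
      (Eventually.of_forall hSR) z hz
  have hh₀ : ∀ z ∈ ULim 𝒰 S, φ x₀ = φ z := by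
    intro z hz
    refine hφ _ _ ((hSR₀ z hz).mono l3) ?_
    rw [← norm_le_zero_iff]
    refine le_of_forall_pos_le_add fun η' hη' => ?_
    rw [zero_add]
    have hcont : ContinuousOn (fun p : X × X => ‖C.κ p.1 p.2‖) {p | SR g.symm ε' p.1 p.2} := by
      refine (C.contOn.norm).mono fun p hp => ?_
      exact (hp 0).trans_lt l4
    have hcl : IsClosed ({p : X × X | SR g.symm ε' p.1 p.2} ∩
        (fun p : X × X => ‖C.κ p.1 p.2‖) ⁻¹' (Iic η')) :=
      hcont.preimage_isClosed_of_isClosed hclSR isClosed_Iic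
    have h1 : ∀ᶠ n : ℕ in atTop, 1 / ((n : ℝ) + 1) < η' :=
      (tendsto_order.1 tendsto_one_div_add_atTop_nhds_zero_nat).2 η' hη'
    have h2 := closed_rel 𝒰 S _ hcl x x₀ hx₀ (h𝒰 (h1.mono fun n hn z hz =>
      ⟨hSR n z hz, (hhz n z hz).trans hn.le⟩)) z hz
    exact h2.2
  have hge : ε' ≤ dist (g x₀) (g q₀) := by
    have h1 : Tendsto (fun n => dist (g (x n)) (g (q n))) 𝒰 (𝓝 (dist (g x₀) (g q₀))) :=
      ((g.continuous.tendsto x₀).comp hx₀).dist ((g.continuous.tendsto q₀).comp hq₀)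
    exact ge_of_tendsto h1 (Eventually.of_forall hgq)
  have hsub : (ULim 𝒰 S).Subsingleton := by
    refine hL _ (isClosed_ULim 𝒰 S).isCompact (isPreconnected_ULim 𝒰 S hCc) ?_ ?_
    · intro a ha b hb n
      have h3 := hSR₀ a ha n
      have h4 := hSR₀ b hb n
      have h5 := dist_triangle_left (g.symm^[n] a) (g.symm^[n] b) (g.symm^[n] x₀)
      linarith
    · intro a ha b hb
      rw [← hh₀ a ha, ← hh₀ b hb]
  have h1 : x₀ = q₀ := hsub hxL hqL
  rw [h1, dist_self] at hge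
  linarith

/-- **Strips exist for light cocycles.** -/
theorem CL.lf (hX : ULC X) (hg : LP g c)
    (hL : ∀ ε > 0, ∃ ρ > 0, ∀ β : C(I, SM g.symm),
      (∀ t, ‖C.cu (β 0).val (β t).val‖ ≤ ρ) → ∀ t, SR g.symm ε (β 0).val (β t).val) :
    ∀ a s, WS g a s → Lf g a s := by
  intro a s has v hv0
  have hη := C.η_pos
  obtain ⟨c₁, hc₁, hc₁c, hsl⟩ := C.slide_loc hg
  obtain ⟨ρ, hρ, hsm⟩ := hL c₁ hc₁
  obtain ⟨τ, hτ0, hτ1⟩ := leaf_conn hg hX a s has
  have hva : ∀ t, WS g.symm a (v t).val := fun t => by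
    have := WS_of_path hg.symm v 0 t
    rwa [hv0] at this
  obtain ⟨δ₁, hδ₁, hδ₂⟩ := C.small ρ hρ
  obtain ⟨j, hj⟩ := path_small hg.symm v (η := min (δ₁ / 2) (C.η / 2))
    (lt_min (half_pos hδ₁) (half_pos hη))
  have hjb : ∀ t, ‖C.B.symm^[j] (C.cu a (v t).val)‖ ≤ ρ := by
    intro t
    have h1 := hj j le_rfl t
    rw [hv0] at h1
    rw [← C.cu_iter_symm (hva t), C.cu_eq_κ (ε := C.η / 2) (half_lt_self hη)
      (h1.mono (min_le_right _ _))]
    exact (hδ₂ _ _ (((h1 0).trans (min_le_left _ _)).trans_lt (half_lt_self hδ₁))).le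
  obtain ⟨η, hη0, hη3⟩ := hsl j
  let R : I → Prop := fun r => ∃ Γ : C(I, Pr g), (Γ 0).y = (τ r).val ∧
    (∀ t, (Γ t).x = (v t).val) ∧ ∀ t, C.cu (τ r).val (Γ t).y = C.cu a (v t).val
  have hstep : ∀ r r' : I, SR g η (τ r).val (τ r').val → R r → R r' := by
    rintro r r' hrr ⟨Γ, h1, h2, h3⟩
    let v₂ : C(I, SM g.symm) := ⟨fun t => (Γ t).snd, (qs_snd_cont g).comp Γ.continuous⟩
    obtain ⟨v₃, hv₃⟩ := path_iter j v₂
    have hw₂ : ∀ t, WS g.symm (v₂ 0).val (v₂ t).val := fun t => WS_of_path hg.symm v₂ 0 t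
    have hv20 : (v₂ 0).val = (τ r).val := h1
    have e1 : ∀ t, ‖C.cu (v₃ 0).val (v₃ t).val‖ ≤ ρ := by
      intro t
      rw [hv₃, hv₃, C.cu_iter_symm (hw₂ t), hv20]
      have h4 : C.cu (τ r).val (v₂ t).val = C.cu a (v t).val := h3 t
      rw [h4]
      exact hjb t
    have e2 := hsm v₃ e1
    obtain ⟨Γ₂, g1, g2, g3⟩ := hη3 v₂ (τ r').val (by rw [hv20]; exact hrr)
      (fun t => by rw [← hv₃, ← hv₃]; exact e2 t)
    obtain ⟨Γ', p1, p2⟩ := strip_comp Γ Γ₂ (fun t => g2 t)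
    refine ⟨Γ', by rw [p2, g1], fun t => by rw [p1, h2], fun t => ?_⟩
    rw [p2, g3, hv20]
    exact h3 t
  have hall : R 0 → R 1 :=
    PreconnectedSpace.induction₂' (fun r r' : I => R r → R r')
      (fun r => by
        have h1 : ∀ᶠ r' in 𝓝 r, dist (τ r') (τ r) < η :=
          (Metric.tendsto_nhds.mp (τ.continuous.tendsto r)) _ hη0
        filter_upwards [h1] with r' hr'
        have h4 : SR g η (τ r).val (τ r').val := by
          rw [dist_comm] at hr'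
          exact (SM.dist_le _ _ hη0.le).mp hr'.le
        exact ⟨hstep r r' h4, hstep r' r h4.symm'⟩)
      ⟨fun _ _ _ h1 h2 h3 => h2 (h1 h3)⟩ 0 1
  have hR0 : R 0 := by
    have hcont : Continuous fun t : I => (⟨(v t).val, (v t).val, WS.refl _ _⟩ : Pr g) := by
      rw [Pr.continuous_iff]
      refine ⟨v.continuous, v.continuous, fun a ε hε => ⟨0, Eventually.of_forall fun t k _ => ?_⟩⟩
      show dist (g^[k] (v t).val) (g^[k] (v t).val) ≤ ε
      rw [dist_self]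
      exact hε.le
    refine ⟨⟨_, hcont⟩, ?_, fun t => rfl, fun t => ?_⟩
    · show (v 0).val = (τ 0).val
      rw [hv0, hτ0]
    · show C.cu (τ 0).val (v t).val = C.cu a (v t).val
      rw [hτ0]
  obtain ⟨Γ, h1, h2, -⟩ := hall hR0
  rw [hτ1] at h1
  exact ⟨(Γ 1).y, Γ, h1, rfl, h2⟩

end Pool.Agent.Q227.AL
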